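import Mathlib

/-!
Monogenity of the irreducible factors of Fibonacci and Lucas polynomials: the common lemmas.
-/

set_option autoImplicit false

namespace Pool.Agent.Q26.Mono

open Polynomial IntermediateField

/-- Fibonacci polynomials -/
noncomputable def fibP : ℕ → ℤ[X]
  | 0 => 0
  | 1 => 1
  | (n + 2) => X * fibP (n + 1) + fibP n

/-- Lucas polynomials -/
noncomputable def lucP : ℕ → ℤ[X]
  | 0 => 2
  | 1 => X
  | (n + 2) => X * lucP (n + 1) + lucP n

lemma aeval_two {A : Type*} [CommRing A] (x : A) : aeval x (2 : ℤ[X]) = 2 := by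
  rw [show (2 : ℤ[X]) = C 2 from rfl, aeval_C]; simp

lemma aeval_mem_sub {R A : Type*} [CommRing R] [CommRing A] [Algebra R A] (S : Subalgebra R A) {x : A}
    (h : x ∈ S) (p : R[X]) : aeval x p ∈ S := by
  have := Subalgebra.aeval_coe S ⟨x, h⟩ p
  rw [show ((⟨x, h⟩ : S) : A) = x from rfl] at this
  rw [this]
  exact (aeval (⟨x, h⟩ : S) p).2

lemma fib_aeval_mul {y : ℂ} (hy : y ≠ 0) (n : ℕ) :
    aeval (y - y⁻¹) (fibP n) * (y + y⁻¹) = y ^ n - (-y⁻¹) ^ n := by
  induction n using Nat.strong_induction_on with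
  | _ n ih =>
    match n, ih with
    | 0, _ => simp [fibP]
    | 1, _ => simp [fibP]
    | (n + 2), ih =>
      have h1 := ih (n + 1) (by omega)
      have h0 := ih n (by omega)
      have e : aeval (y - y⁻¹) (fibP (n + 2)) =
          (y - y⁻¹) * aeval (y - y⁻¹) (fibP (n + 1)) + aeval (y - y⁻¹) (fibP n) := by
        simp [fibP]
      rw [e, add_mul, mul_assoc, h1, h0]
      have hyy : y * y⁻¹ = 1 := mul_inv_cancel₀ hy
      have : (y - y⁻¹) * (y ^ (n + 1) - (-y⁻¹) ^ (n + 1)) + (y ^ n - (-y⁻¹) ^ n) -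
          (y ^ (n + 2) - (-y⁻¹) ^ (n + 2)) = (1 - y * y⁻¹) * (y ^ n - (-y⁻¹) ^ n) := by ring
      rw [hyy] at this
      linear_combination this

lemma luc_aeval {y : ℂ} (hy : y ≠ 0) (n : ℕ) :
    aeval (y - y⁻¹) (lucP n) = y ^ n + (-y⁻¹) ^ n := by
  induction n using Nat.strong_induction_on with
  | _ n ih =>
    match n, ih with
    | 0, _ => simp [lucP, aeval_two]; norm_num
    | 1, _ => simp [lucP]; ring
    | (n + 2), ih =>
      have h1 := ih (n + 1) (by omega)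
      have h0 := ih n (by omega)
      have e : aeval (y - y⁻¹) (lucP (n + 2)) =
          (y - y⁻¹) * aeval (y - y⁻¹) (lucP (n + 1)) + aeval (y - y⁻¹) (lucP n) := by
        simp [lucP]
      rw [e, h1, h0]
      have hyy : y * y⁻¹ = 1 := mul_inv_cancel₀ hy
      have : (y - y⁻¹) * (y ^ (n + 1) + (-y⁻¹) ^ (n + 1)) + (y ^ n + (-y⁻¹) ^ n) -
          (y ^ (n + 2) + (-y⁻¹) ^ (n + 2)) = (1 - y * y⁻¹) * (y ^ n + (-y⁻¹) ^ n) := by ring
      rw [hyy] at this
      linear_combination this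

lemma pow_eq_fib {y : ℂ} (hy : y ≠ 0) (n : ℕ) :
    y ^ (n + 1) = aeval (y - y⁻¹) (fibP (n + 1)) * y + aeval (y - y⁻¹) (fibP n) := by
  induction n with
  | zero => simp [fibP]
  | succ n ih =>
    have e : aeval (y - y⁻¹) (fibP (n + 2)) =
        (y - y⁻¹) * aeval (y - y⁻¹) (fibP (n + 1)) + aeval (y - y⁻¹) (fibP n) := by
      simp [fibP]
    have hyy : y * y⁻¹ = 1 := mul_inv_cancel₀ hy
    rw [show n + 1 + 1 = n + 2 by ring, e, pow_succ, ih]
    linear_combination (aeval (y - y⁻¹) (fibP (n + 1))) * hyy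

/-- a difference `g(x) - g(-x)` is divisible by two -/
lemma sub_comp_neg (g : ℤ[X]) : ∃ h : ℤ[X], g - g.comp (-X) = 2 * h := by
  induction g using Polynomial.induction_on' with
  | add p q hp hq =>
    obtain ⟨a, ha⟩ := hp
    obtain ⟨b, hb⟩ := hq
    refine ⟨a + b, ?_⟩
    rw [add_comp]
    linear_combination ha + hb
  | monomial k a =>
    rcases Nat.even_or_odd k with hk | hk
    · refine ⟨0, ?_⟩
      rw [← C_mul_X_pow_eq_monomial]
      simp [hk.neg_pow]
    · refine ⟨C a * X ^ k, ?_⟩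
      rw [← C_mul_X_pow_eq_monomial]
      simp [hk.neg_pow]
      ring

lemma not_integral_half (n : ℕ) (hn : Odd n) (w : ℂ) (hw : IsIntegral ℤ w) : (n : ℂ) ≠ 2 * w := by
  intro h
  have hw' : w = algebraMap ℚ ℂ ((n : ℚ) / 2) := by
    have : w = (n : ℂ) / 2 := by rw [h]; ring
    rw [this]
    simp
  rw [hw'] at hw
  have h2 : IsIntegral ℤ ((n : ℚ) / 2) :=
    (isIntegral_algebraMap_iff (algebraMap ℚ ℂ).injective).1 hw
  obtain ⟨m, hm⟩ := IsIntegrallyClosed.isIntegral_iff.1 h2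
  have h3 : (n : ℚ) = 2 * m := by
    have : ((m : ℤ) : ℚ) = (n : ℚ) / 2 := by simpa using hm
    rw [this]; ring
  have h4 : (n : ℤ) = 2 * m := by exact_mod_cast h3
  obtain ⟨k, hk⟩ := hn
  omega

/-- the key: for `y` of odd order `> 1` the algebraic integer `y` lies in `ℚ(y - 1/y)` and not in
`ℤ[y - 1/y]` -/
theorem key {y : ℂ} {n : ℕ} (hn : Odd n) (hyn : y ^ n = 1) (hy1 : y ≠ 1) :
    y ∈ ℚ⟮y - y⁻¹⟯ ∧ IsIntegral ℤ y ∧ y ∉ Algebra.adjoin ℤ {y - y⁻¹} := by
  have hn0 : n ≠ 0 := by rintro rfl; simp at hn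
  have hy0 : y ≠ 0 := by rintro rfl; simp [hn0] at hyn
  have hyint : IsIntegral ℤ y := by
    refine IsIntegral.of_pow (Nat.pos_of_ne_zero hn0) ?_
    rw [hyn]; exact isIntegral_one
  refine ⟨?_, hyint, ?_⟩
  · -- membership in the field
    obtain ⟨k, hk⟩ : ∃ k, n = k + 1 := ⟨n - 1, by omega⟩
    have h1 := pow_eq_fib hy0 k
    rw [← hk, hyn] at h1
    have h2 := fib_aeval_mul hy0 n
    rw [hn.neg_pow, inv_pow, hyn] at h2
    have h3 : aeval (y - y⁻¹) (fibP n) ≠ 0 := by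
      intro h
      rw [h] at h2
      norm_num at h2
    have hmem : ∀ g : ℤ[X], aeval (y - y⁻¹) g ∈ ℚ⟮y - y⁻¹⟯ := by
      intro g
      have : y - y⁻¹ ∈ ℚ⟮y - y⁻¹⟯ := mem_adjoin_simple_self ℚ _
      have e : aeval (y - y⁻¹) g = aeval (y - y⁻¹) (g.map (algebraMap ℤ ℚ)) := by
        rw [aeval_map_algebraMap]
      rw [e]
      exact aeval_mem_sub (ℚ⟮y - y⁻¹⟯).toSubalgebra this (g.map (algebraMap ℤ ℚ))
    have h4 : y = (1 - aeval (y - y⁻¹) (fibP k)) / aeval (y - y⁻¹) (fibP n) := by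
      rw [eq_div_iff h3]
      rw [hk] at h1 ⊢
      linear_combination -h1
    have h5 : (1 - aeval (y - y⁻¹) (fibP k)) / aeval (y - y⁻¹) (fibP n) ∈ ℚ⟮y - y⁻¹⟯ :=
      div_mem (sub_mem (one_mem _) (hmem _)) (hmem _)
    rw [← h4] at h5
    exact h5
  · intro hmem
    rw [Algebra.adjoin_singleton_eq_range_aeval] at hmem
    obtain ⟨g, hg⟩ := hmem
    have hg : aeval (y - y⁻¹) g = y := hg
    -- conjugation
    have hnorm : ‖y‖ = 1 := by
      have : ‖y‖ ^ n = 1 := by rw [← norm_pow, hyn, norm_one]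
      exact (pow_eq_one_iff_of_nonneg (norm_nonneg _) hn0).1 this
    have hconj : (starRingEnd ℂ) y = y⁻¹ := by
      rw [Complex.inv_def, Complex.normSq_eq_norm_sq, hnorm]
      simp
    have hg2 : aeval (-(y - y⁻¹)) g = y⁻¹ := by
      have h1 : (starRingEnd ℂ) (aeval (y - y⁻¹) g) = aeval ((starRingEnd ℂ) (y - y⁻¹)) g := by
        rw [aeval_def, aeval_def, hom_eval₂]
        congr 1
        ext
        simp
      rw [hg, hconj, map_sub, map_inv₀, hconj, inv_inv] at h1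
      rw [neg_sub]
      exact h1.symm
    obtain ⟨h, hh⟩ := sub_comp_neg g
    have hθint : IsIntegral ℤ (y - y⁻¹) := by
      have : IsIntegral ℤ y⁻¹ := by
        refine IsIntegral.of_pow (Nat.pos_of_ne_zero hn0) ?_
        rw [inv_pow, hyn, inv_one]; exact isIntegral_one
      exact hyint.sub this
    set β : ℂ := aeval (y - y⁻¹) h with hβ
    have hβint : IsIntegral ℤ β := by
      have := hθint
      exact (aeval_mem_sub (integralClosure ℤ ℂ) this h)
    have h2 : y - y⁻¹ = 2 * β := by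
      have := congrArg (aeval (y - y⁻¹)) hh
      rw [map_sub, aeval_comp, map_mul, map_neg, aeval_X, hg, hg2] at this
      rw [this, aeval_two]
    -- `y² = 1 + 2 β y`
    have h3 : y ^ 2 - 1 = 2 * (β * y) := by
      have hyy : y * y⁻¹ = 1 := mul_inv_cancel₀ hy0
      linear_combination y * h2 + hyy
    obtain ⟨k, hk⟩ := hn
    -- `y - 1 = 2 γ`
    set γ : ℂ := β * y * ∑ i ∈ Finset.range (k + 1), (y ^ 2) ^ i with hγ
    have hγint : IsIntegral ℤ γ := by
      refine (hβint.mul hyint).mul (IsIntegral.sum _ fun i _ => (hyint.pow 2).pow i)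
    have h4 : y - 1 = 2 * γ := by
      have h5 : (y ^ 2 - 1) * ∑ i ∈ Finset.range (k + 1), (y ^ 2) ^ i = (y ^ 2) ^ (k + 1) - 1 :=
        mul_geom_sum _ _
      have h6 : (y ^ 2) ^ (k + 1) = y := by
        rw [← pow_mul, show 2 * (k + 1) = n + 1 by omega, pow_succ, hyn, one_mul]
      rw [h6, h3] at h5
      rw [hγ, ← h5]
      ring
    -- the geometric sum
    have h7 : ∑ j ∈ Finset.range n, y ^ j = 0 := by
      have := mul_geom_sum y n
      rw [hyn, sub_self] at this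
      rcases mul_eq_zero.1 this with h | h
      · exact absurd (sub_eq_zero.1 h) hy1
      · exact h
    have h8 : ∀ j : ℕ, y ^ j - 1 = 2 * (γ * ∑ i ∈ Finset.range j, y ^ i) := by
      intro j
      rw [← mul_geom_sum y j, h4]
      ring
    set w : ℂ := -∑ j ∈ Finset.range n, (γ * ∑ i ∈ Finset.range j, y ^ i) with hw
    have hwint : IsIntegral ℤ w := by
      refine (IsIntegral.sum _ fun j _ => hγint.mul (IsIntegral.sum _ fun i _ => hyint.pow i)).neg
    refine not_integral_half n ⟨k, hk⟩ w hwint ?_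
    have h9 : ∑ j ∈ Finset.range n, (y ^ j - 1) = -(n : ℂ) := by
      rw [Finset.sum_sub_distrib, h7]
      simp
    rw [Finset.sum_congr rfl fun j _ => h8 j, ← Finset.mul_sum] at h9
    rw [hw]
    linear_combination h9

/-- `f` is monogenic -/
def MonoP (f : ℤ[X]) : Prop :=
  ∀ θ : ℂ, aeval θ f = 0 → ∀ α : ℂ, (α ∈ ℚ⟮θ⟯ ∧ IsIntegral ℤ α) ↔ α ∈ Algebra.adjoin ℤ {θ}

lemma adjoin_sub {θ : ℂ} (hθ : IsIntegral ℤ θ) {α : ℂ} (h : α ∈ Algebra.adjoin ℤ {θ}) :
    α ∈ ℚ⟮θ⟯ ∧ IsIntegral ℤ α := by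
  rw [Algebra.adjoin_singleton_eq_range_aeval] at h
  obtain ⟨g, hg⟩ := h
  have hg : aeval θ g = α := hg
  constructor
  · have : θ ∈ ℚ⟮θ⟯ := mem_adjoin_simple_self ℚ _
    have e : aeval θ g = aeval θ (g.map (algebraMap ℤ ℚ)) := by
      rw [aeval_map_algebraMap]
    rw [← hg, e]
    exact aeval_mem_sub (ℚ⟮θ⟯).toSubalgebra this (g.map (algebraMap ℤ ℚ))
  · rw [← hg]
    exact (aeval_mem_sub (integralClosure ℤ ℂ) hθ g)

lemma integral_of_root {f : ℤ[X]} (hf : f.Monic) {θ : ℂ} (h : aeval θ f = 0) : IsIntegral ℤ θ :=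
  ⟨f, hf, by rwa [← aeval_def]⟩

lemma mono_X : MonoP X := by
  intro θ hθ α
  rw [aeval_X] at hθ
  subst hθ
  constructor
  · rintro ⟨h1, h2⟩
    have h3 : ℚ⟮(0 : ℂ)⟯ = ⊥ := by
      rw [adjoin_simple_eq_bot_iff]
      exact zero_mem _
    rw [h3, mem_bot] at h1
    obtain ⟨q, rfl⟩ := h1
    have h4 : IsIntegral ℤ q := (isIntegral_algebraMap_iff (algebraMap ℚ ℂ).injective).1 h2
    obtain ⟨m, rfl⟩ := IsIntegrallyClosed.isIntegral_iff.1 h4
    have : algebraMap ℚ ℂ (algebraMap ℤ ℚ m) = algebraMap ℤ ℂ m := by simp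
    rw [this]
    exact Subalgebra.algebraMap_mem _ _
  · intro h
    exact adjoin_sub isIntegral_zero h

lemma not_mono_of {f : ℤ[X]} {y : ℂ} {n : ℕ} (hn : Odd n) (hyn : y ^ n = 1) (hy1 : y ≠ 1)
    (hf : aeval (y - y⁻¹) f = 0) : ¬ MonoP f := by
  intro h
  obtain ⟨h1, h2, h3⟩ := key hn hyn hy1
  exact h3 ((h _ hf y).1 ⟨h1, h2⟩)

/-- a complex number is `y - 1/y` -/
lemma exists_y (θ : ℂ) : ∃ y : ℂ, y ≠ 0 ∧ θ = y - y⁻¹ := by
  obtain ⟨s, hs⟩ := IsAlgClosed.exists_pow_nat_eq (θ ^ 2 + 4) (n := 2) (by norm_num)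
  have h1 : ((θ + s) / 2) * ((θ + s) / 2) - θ * ((θ + s) / 2) - 1 = 0 := by
    linear_combination (1 / 4) * hs
  have h0 : (θ + s) / 2 ≠ 0 := by
    intro h
    rw [h] at h1
    norm_num at h1
  refine ⟨(θ + s) / 2, h0, ?_⟩
  have h2 : ((θ + s) / 2)⁻¹ = (θ + s) / 2 - θ := by
    apply inv_eq_of_mul_eq_one_right
    linear_combination h1
  rw [h2]
  ring

lemma monic_irr_eq_of_dvd {f g : ℤ[X]} (hf : f.Monic) (hfi : Irreducible f) (hg : g.Monic)
    (hgi : Irreducible g) (h : f ∣ g) : f = g := by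
  have h1 : Associated f g := by
    rcases hgi.dvd_iff.1 h with h2 | h2
    · exact absurd h2 hfi.not_isUnit
    · exact h2.symm
  exact eq_of_monic_of_associated hf hg h1

lemma eq_X_of_root_zero {f : ℤ[X]} (hf : f.Monic) (hfi : Irreducible f)
    (h : aeval (0 : ℂ) f = 0) : f = X := by
  symm
  refine monic_irr_eq_of_dvd monic_X irreducible_X hf hfi ?_
  rw [X_dvd_iff]
  have : aeval (0 : ℂ) f = algebraMap ℤ ℂ (f.coeff 0) := by
    rw [aeval_def, eval₂_at_zero]
  rw [this] at h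
  simpa using h

theorem odd_lucas {n : ℕ} (hn : Odd n) {f : ℤ[X]} (hf : f.Monic) (hfi : Irreducible f)
    (hd : f ∣ lucP n) : MonoP f ↔ f = X := by
  constructor
  · intro hm
    by_contra hX
    have hdeg : 0 < f.degree := hf.degree_pos_of_not_isUnit hfi.not_isUnit
    obtain ⟨θ, hθ⟩ := IsAlgClosed.exists_aeval_eq_zero_of_injective ℂ
      (algebraMap ℤ ℂ).injective_int f hdeg.ne'
    obtain ⟨y, hy0, rfl⟩ := exists_y θ
    have hL : aeval (y - y⁻¹) (lucP n) = 0 := by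
      obtain ⟨g, hg⟩ := hd
      rw [hg, map_mul, hθ, zero_mul]
    rw [luc_aeval hy0, hn.neg_pow] at hL
    have h1 : y ^ n * y ^ n = 1 := by
      have h2 : y ^ n * (y⁻¹) ^ n = 1 := by
        rw [← mul_pow, mul_inv_cancel₀ hy0, one_pow]
      linear_combination (y ^ n) * hL + h2
    have hθ0 : y - y⁻¹ ≠ 0 := by
      intro h
      rw [h] at hθ
      exact hX (eq_X_of_root_zero hf hfi hθ)
    rcases mul_self_eq_one_iff.1 h1 with h | h
    · refine not_mono_of hn h ?_ hθ hm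
      rintro rfl
      simp at hθ0
    · have h3 : (-y⁻¹) ^ n = 1 := by
        rw [hn.neg_pow, inv_pow, h]; norm_num
      have h4 : -y⁻¹ - (-y⁻¹)⁻¹ = y - y⁻¹ := by
        rw [inv_neg, inv_inv]; ring
      refine not_mono_of hn h3 ?_ (by rw [h4]; exact hθ) hm
      intro h5
      rw [← h4, h5] at hθ0
      simp at hθ0
  · rintro rfl
    exact mono_X

/-- a root of unity of odd order `n > 1` -/
lemma exists_root_of_unity {n : ℕ} (hn : 1 < n) : ∃ y : ℂ, y ^ n = 1 ∧ y ≠ 1 := by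
  have h := Complex.isPrimitiveRoot_exp n (by omega)
  exact ⟨_, h.pow_eq_one, h.ne_one hn⟩

theorem odd_lucas_all {n : ℕ} (hn : Odd n) :
    (∀ f : ℤ[X], f.Monic → Irreducible f → f ∣ lucP n → MonoP f) ↔ n = 1 := by
  constructor
  · intro h
    by_contra h1
    have hn1 : 1 < n := by
      rcases hn with ⟨k, hk⟩
      omega
    obtain ⟨y, hy, hy1⟩ := exists_root_of_unity hn1
    have hy0 : y ≠ 0 := by
      rintro rfl
      rw [zero_pow (by omega)] at hy
      exact zero_ne_one hy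
    have hint : IsIntegral ℤ (y - y⁻¹) := by
      have h1 : IsIntegral ℤ y := IsIntegral.of_pow (n := n) (by omega) (by rw [hy]; exact isIntegral_one)
      have h2 : IsIntegral ℤ y⁻¹ := IsIntegral.of_pow (n := n) (by omega)
        (by rw [inv_pow, hy, inv_one]; exact isIntegral_one)
      exact h1.sub h2
    have hroot : aeval (y - y⁻¹) (lucP n) = 0 := by
      rw [luc_aeval hy0, hn.neg_pow, inv_pow, hy]
      norm_num
    have hdvd : minpoly ℤ (y - y⁻¹) ∣ lucP n := minpoly.isIntegrallyClosed_dvd hint hroot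
    have hm := h _ (minpoly.monic hint) (minpoly.irreducible hint) hdvd
    exact not_mono_of hn hy hy1 (minpoly.aeval ℤ _) hm
  · rintro rfl f hf hfi hd
    have : f = X := monic_irr_eq_of_dvd hf hfi monic_X irreducible_X hd
    rw [this]
    exact mono_X

end Pool.Agent.Q26.Mono
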