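import Pool.Agent.Q26.Mono

/-!
Monogenity of the irreducible factors of Fibonacci polynomials with even index.
-/

set_option autoImplicit false

namespace Pool.Agent.Q26.Mono

open Polynomial IntermediateField

lemma fibP_add_two (n : ℕ) : fibP (n + 2) = X * fibP (n + 1) + fibP n := by
  conv_lhs => unfold fibP

lemma lucP_add_two (n : ℕ) : lucP (n + 2) = X * lucP (n + 1) + lucP n := by
  conv_lhs => unfold lucP

lemma fibP_zero : fibP 0 = 0 := by unfold fibP; rfl
lemma fibP_one : fibP 1 = 1 := by unfold fibP; rfl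
lemma lucP_zero : lucP 0 = 2 := by unfold lucP; rfl
lemma lucP_one : lucP 1 = X := by unfold lucP; rfl

lemma two_fib_succ (n : ℕ) : 2 * fibP (n + 1) = X * fibP n + lucP n := by
  induction n using Nat.strong_induction_on with
  | _ n ih =>
    match n, ih with
    | 0, _ => simp [fibP_zero, fibP_one, lucP_zero]
    | 1, _ => rw [fibP_add_two, fibP_zero, fibP_one, lucP_one]; ring
    | (n + 2), ih =>
      have h1 := ih (n + 1) (by omega)
      have h0 := ih n (by omega)
      rw [show n + 2 + 1 = (n + 1) + 2 by ring, fibP_add_two (n + 1), lucP_add_two n,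
        fibP_add_two n]
      rw [show n + 1 + 1 = n + 2 by ring, fibP_add_two n] at h1
      linear_combination X * h1 + h0

lemma two_luc_succ (n : ℕ) : 2 * lucP (n + 1) = X * lucP n + (X ^ 2 + 4) * fibP n := by
  induction n using Nat.strong_induction_on with
  | _ n ih =>
    match n, ih with
    | 0, _ => simp [fibP_zero, lucP_one, lucP_zero]; ring
    | 1, _ => rw [lucP_add_two, fibP_one, lucP_one, lucP_zero]; ring
    | (n + 2), ih =>
      have h1 := ih (n + 1) (by omega)
      have h0 := ih n (by omega)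
      rw [show n + 2 + 1 = (n + 1) + 2 by ring, lucP_add_two (n + 1), fibP_add_two n,
        lucP_add_two n]
      rw [show n + 1 + 1 = n + 2 by ring, lucP_add_two n] at h1
      linear_combination X * h1 + h0

lemma add_formulas (m n : ℕ) :
    2 * lucP (m + n) = lucP m * lucP n + (X ^ 2 + 4) * fibP m * fibP n ∧
    2 * fibP (m + n) = fibP m * lucP n + lucP m * fibP n := by
  induction n using Nat.strong_induction_on with
  | _ n ih =>
    match n, ih with
    | 0, _ => simp [fibP_zero, lucP_zero]; constructor <;> ring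
    | 1, _ =>
      rw [fibP_one, lucP_one]
      have h1 := two_luc_succ m
      have h2 := two_fib_succ m
      constructor
      · linear_combination h1
      · linear_combination h2
    | (n + 2), ih =>
      obtain ⟨h1, h2⟩ := ih (n + 1) (by omega)
      obtain ⟨h3, h4⟩ := ih n (by omega)
      rw [show m + (n + 2) = (m + n) + 2 by ring, lucP_add_two (m + n), fibP_add_two (m + n),
        lucP_add_two n, fibP_add_two n]
      rw [show m + (n + 1) = m + n + 1 by ring] at h1 h2
      constructor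
      · linear_combination X * h1 + h3
      · linear_combination X * h2 + h4

lemma norm_formulas (n : ℕ) :
    lucP n ^ 2 - (X ^ 2 + 4) * fibP n ^ 2 = 4 * (-1) ^ n ∧
    lucP (n + 1) * lucP n - (X ^ 2 + 4) * fibP (n + 1) * fibP n = 2 * X * (-1) ^ n := by
  induction n with
  | zero =>
    rw [lucP_zero, fibP_zero]
    simp only [zero_add]
    rw [lucP_one, fibP_one]
    constructor <;> ring
  | succ n ih =>
    obtain ⟨h1, h2⟩ := ih
    have h3 := two_luc_succ n
    have h4 := two_fib_succ n
    have h5 : lucP (n + 1) ^ 2 - (X ^ 2 + 4) * fibP (n + 1) ^ 2 = 4 * (-1) ^ (n + 1) := by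
      have : (4 : ℤ[X]) ≠ 0 := by
        have : (4 : ℤ[X]) = C 4 := rfl
        rw [this, Ne, C_eq_zero]
        norm_num
      apply mul_left_cancel₀ this
      have e : 4 * (lucP (n + 1) ^ 2 - (X ^ 2 + 4) * fibP (n + 1) ^ 2) =
          (2 * lucP (n + 1)) ^ 2 - (X ^ 2 + 4) * (2 * fibP (n + 1)) ^ 2 := by ring
      rw [e, h3, h4, pow_succ]
      linear_combination (-4) * h1
    refine ⟨h5, ?_⟩
    rw [show n + 1 + 1 = n + 2 by ring, lucP_add_two, fibP_add_two, pow_succ]
    rw [pow_succ] at h5
    linear_combination X * h5 + h2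

lemma two_ne : (2 : ℤ[X]) ≠ 0 := by
  have : (2 : ℤ[X]) = C 2 := rfl
  rw [this, Ne, C_eq_zero]
  norm_num

lemma luc_double (m : ℕ) : lucP (2 * m) = lucP m ^ 2 - 2 * (-1) ^ m := by
  have h1 := (add_formulas m m).1
  have h2 := (norm_formulas m).1
  apply mul_left_cancel₀ two_ne
  rw [two_mul m, h1]
  linear_combination -h2

lemma fib_double (m : ℕ) : fibP (2 * m) = fibP m * lucP m := by
  have h1 := (add_formulas m m).2
  apply mul_left_cancel₀ two_ne
  rw [two_mul m, h1]
  ring

lemma luc_succ (n : ℕ) : lucP (n + 1) = X * fibP (n + 1) + 2 * fibP n := by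
  have h1 := two_luc_succ n
  have h2 := two_fib_succ n
  apply mul_left_cancel₀ two_ne
  linear_combination h1 - X * h2

lemma derivative_luc (n : ℕ) : derivative (lucP n) = (n : ℤ[X]) * fibP n := by
  induction n using Nat.strong_induction_on with
  | _ n ih =>
    match n, ih with
    | 0, _ => rw [lucP_zero]; simp
    | 1, _ => rw [lucP_one, fibP_one]; simp
    | (n + 2), ih =>
      have h1 := ih (n + 1) (by omega)
      have h0 := ih n (by omega)
      rw [lucP_add_two, derivative_add, derivative_mul, derivative_X, h1, h0, luc_succ n,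
        fibP_add_two n]
      push_cast
      ring

/-- the Lucas polynomial of index `2 ^ j` -/
lemma luc_two_pow (j : ℕ) : (lucP (2 ^ j)).Monic ∧ (lucP (2 ^ j)).natDegree = 2 ^ j ∧
    (lucP (2 ^ j)).map (Int.castRingHom (ZMod 2)) = X ^ (2 ^ j) ∧
    (1 ≤ j → (lucP (2 ^ j)).coeff 0 = 2) := by
  induction j with
  | zero =>
    simp only [pow_zero]
    rw [lucP_one]
    refine ⟨monic_X, natDegree_X, by simp, by omega⟩
  | succ j ih =>
    obtain ⟨h1, h2, h3, h4⟩ := ih
    have e : lucP (2 ^ (j + 1)) = lucP (2 ^ j) ^ 2 - C (2 * (-1) ^ (2 ^ j)) := by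
      rw [pow_succ, mul_comm, luc_double]
      simp
    have hlt : (C (2 * (-1) ^ (2 ^ j)) : ℤ[X]).degree < (lucP (2 ^ j) ^ 2).degree := by
      refine lt_of_le_of_lt degree_C_le ?_
      rw [← natDegree_pos_iff_degree_pos, h1.natDegree_pow, h2]
      positivity
    refine ⟨?_, ?_, ?_, ?_⟩
    · rw [e]
      exact (h1.pow 2).sub_of_left hlt
    · rw [e, natDegree_sub_eq_left_of_natDegree_lt, h1.natDegree_pow, h2, pow_succ, mul_comm]
      rw [natDegree_C, h1.natDegree_pow, h2]
      positivity
    · rw [e, Polynomial.map_sub, Polynomial.map_pow, h3, map_C]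
      have : (Int.castRingHom (ZMod 2)) (2 * (-1) ^ (2 ^ j)) = 0 := by
        rw [map_mul]
        have : (Int.castRingHom (ZMod 2)) 2 = 0 := by decide
        rw [this, zero_mul]
      rw [this, map_zero, sub_zero, ← pow_mul, pow_succ]
    · intro _
      rw [e, coeff_sub, coeff_C_zero]
      rcases Nat.eq_zero_or_pos j with rfl | hj
      · simp only [pow_zero]
        rw [lucP_one]
        simp
      · have h5 := h4 hj
        have h6 : (lucP (2 ^ j) ^ 2).coeff 0 = 4 := by
          rw [sq, mul_coeff_zero, h5]; norm_num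
        rw [h6]
        have : Even (2 ^ j) := (Nat.even_pow.2 ⟨even_two, by omega⟩)
        rw [this.neg_one_pow]
        norm_num

lemma luc_eisenstein {j : ℕ} (hj : 1 ≤ j) :
    (lucP (2 ^ j)).IsEisensteinAt (Submodule.span ℤ {(2 : ℤ)}) := by
  obtain ⟨h1, h2, h3, h4⟩ := luc_two_pow j
  constructor
  · rw [h1.leadingCoeff, Ideal.submodule_span_eq, Ideal.mem_span_singleton]
    norm_num
  · intro n hn
    rw [Ideal.submodule_span_eq, Ideal.mem_span_singleton]
    have : ((lucP (2 ^ j)).map (Int.castRingHom (ZMod 2))).coeff n = 0 := by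
      rw [h3, coeff_X_pow, if_neg]
      intro h
      rw [h2] at hn
      omega
    rw [coeff_map] at this
    have h5 : (((lucP (2 ^ j)).coeff n : ℤ) : ZMod 2) = 0 := by simpa using this
    exact_mod_cast (ZMod.intCast_zmod_eq_zero_iff_dvd _ 2).1 h5
  · rw [h4 hj, Ideal.submodule_span_eq, Ideal.span_singleton_pow, Ideal.mem_span_singleton]
    norm_num

lemma luc_irreducible (j : ℕ) : Irreducible (lucP (2 ^ j)) := by
  rcases Nat.eq_zero_or_pos j with rfl | hj
  · simp only [pow_zero]
    rw [lucP_one]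
    exact irreducible_X
  · have h := luc_eisenstein hj
    obtain ⟨h1, h2, h3, h4⟩ := luc_two_pow j
    refine h.irreducible ?_ h1.isPrimitive ?_
    · rw [Ideal.submodule_span_eq, Ideal.span_singleton_prime (by norm_num)]
      exact Int.prime_two
    · rw [h2]; positivity

/-- the Lucas polynomials of index `2 ^ j`, `j ≥ 1`, are monogenic -/
theorem mono_luc {j : ℕ} (hj : 1 ≤ j) : MonoP (lucP (2 ^ j)) := by
  intro θ hθ α
  obtain ⟨hm, hdeg, -, -⟩ := luc_two_pow j
  have hθint : IsIntegral ℤ θ := integral_of_root hm hθ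
  constructor
  swap
  · intro h; exact adjoin_sub hθint h
  rintro ⟨hα, hαint⟩
  have hθQ : IsIntegral ℚ θ := hθint.tower_top
  let K := ℚ⟮θ⟯
  let B : PowerBasis ℚ K := adjoin.powerBasis hθQ
  have hBgen : B.gen = AdjoinSimple.gen ℚ θ := adjoin.powerBasis_gen hθQ
  have hinj : Function.Injective (algebraMap K ℂ) := (algebraMap K ℂ).injective
  have hgen : algebraMap K ℂ B.gen = θ := by rw [hBgen, AdjoinSimple.algebraMap_gen]
  have hBint : IsIntegral ℤ B.gen := by
    rw [← isIntegral_algebraMap_iff hinj, hgen]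
    exact hθint
  have haevK : ∀ g : ℤ[X], algebraMap K ℂ (aeval B.gen g) = aeval θ g := by
    intro g
    rw [← hgen, aeval_algebraMap_apply]
  have hmin : minpoly ℤ B.gen = lucP (2 ^ j) := by
    refine monic_irr_eq_of_dvd (minpoly.monic hBint) (minpoly.irreducible hBint) hm
      (luc_irreducible j) (minpoly.isIntegrallyClosed_dvd hBint ?_)
    apply hinj
    rw [haevK, hθ, map_zero]
  have hEis : (minpoly ℤ B.gen).IsEisensteinAt (Submodule.span ℤ {(2 : ℤ)}) := by
    rw [hmin]; exact luc_eisenstein hj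
  let z : K := ⟨α, hα⟩
  have hz : IsIntegral ℤ z := by
    rw [← isIntegral_algebraMap_iff hinj]
    exact hαint
  have : FiniteDimensional ℚ K := adjoin.finiteDimensional hθQ
  have hdisc := Algebra.discr_mul_isIntegral_mem_adjoin (R := ℤ) ℚ (B := B) hBint hz
  -- the discriminant is a power of two
  set δ : K := aeval B.gen (derivative (minpoly ℚ B.gen)) with hδ
  have hminQ : minpoly ℚ B.gen = (minpoly ℤ B.gen).map (algebraMap ℤ ℚ) :=
    minpoly.isIntegrallyClosed_eq_field_fractions' ℚ hBint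
  have hδ2 : δ = aeval B.gen (((2 ^ j : ℕ) : ℤ[X]) * fibP (2 ^ j)) := by
    rw [hδ, hminQ, hmin, derivative_map, aeval_map_algebraMap, derivative_luc]
  have hδint : IsIntegral ℤ δ := by
    rw [hδ2]
    exact aeval_mem_sub (integralClosure ℤ K) hBint _
  have hL : aeval B.gen (lucP (2 ^ j)) = 0 := by rw [← hmin]; exact minpoly.aeval ℤ _
  have heq : δ ^ 2 * (B.gen ^ 2 + 4) = algebraMap ℚ K (-(2 ^ (2 * j + 2) : ℚ)) := by
    have h1 := congrArg (aeval B.gen) (norm_formulas (2 ^ j)).1
    have hev : Even (2 ^ j) := Nat.even_pow.2 ⟨even_two, by omega⟩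
    have e4 : aeval B.gen (4 : ℤ[X]) = 4 := by
      rw [show (4 : ℤ[X]) = C 4 from rfl, aeval_C]; simp
    rw [hev.neg_one_pow, mul_one, map_sub, map_pow, hL, map_mul, map_add, map_pow, aeval_X, map_pow,
      e4] at h1
    rw [hδ2, map_mul, map_natCast, map_neg, map_pow]
    push_cast
    rw [map_ofNat]
    have e : (2 : K) ^ (2 * j + 2) = (2 ^ j) ^ 2 * 4 := by
      rw [pow_add, mul_comm 2 j, pow_mul]; norm_num
    rw [e]
    linear_combination (-((2 : K) ^ j) ^ 2) * h1
  -- norms
  have hE : IsIntegral ℤ (B.gen ^ 2 + 4) := by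
    refine (hBint.pow 2).add ?_
    have : (4 : K) = algebraMap ℤ K 4 := by simp
    rw [this]
    exact isIntegral_algebraMap
  obtain ⟨D, hD⟩ := IsIntegrallyClosed.isIntegral_iff.1 (Algebra.isIntegral_norm ℚ hδint)
  obtain ⟨E, hE'⟩ := IsIntegrallyClosed.isIntegral_iff.1 (Algebra.isIntegral_norm ℚ hE)
  set d := Module.finrank ℚ K with hd
  have hN : D ^ 2 * E = (-(2 ^ (2 * j + 2))) ^ d := by
    have h1 := congrArg (Algebra.norm ℚ) heq
    rw [map_mul, map_pow, ← hD, ← hE', Algebra.norm_algebraMap] at h1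
    have h2 : ((D ^ 2 * E : ℤ) : ℚ) = (((-(2 ^ (2 * j + 2))) ^ d : ℤ) : ℚ) := by
      push_cast
      simpa using h1
    exact_mod_cast h2
  obtain ⟨c, hc⟩ : D ∣ 2 ^ ((2 * j + 2) * d) := by
    have h1 : D ∣ (-(2 ^ (2 * j + 2))) ^ d := by
      rw [← hN, sq, mul_assoc]
      exact dvd_mul_right _ _
    rw [neg_pow] at h1
    rw [pow_mul]
    exact (IsUnit.dvd_mul_left (IsUnit.pow d isUnit_one.neg)).1 h1
  have hDz : D • z ∈ Algebra.adjoin ℤ ({B.gen} : Set K) := by
    rw [Algebra.discr_powerBasis_eq_norm, ← hδ, ← hD] at hdisc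
    rcases neg_one_pow_eq_or ℚ (Module.finrank ℚ K * (Module.finrank ℚ K - 1) / 2) with h | h
    · rw [h, one_mul] at hdisc
      have e : D • z = (algebraMap ℤ ℚ D) • z := by
        rw [algebraMap_smul]
      rw [e]; exact hdisc
    · rw [h, neg_one_mul, neg_smul] at hdisc
      have e : D • z = -(-((algebraMap ℤ ℚ D) • z)) := by
        rw [neg_neg, algebraMap_smul]
      rw [e]; exact neg_mem hdisc
  have h2z : (2 : ℤ) ^ ((2 * j + 2) * d) • z ∈ Algebra.adjoin ℤ ({B.gen} : Set K) := by
    rw [hc, mul_comm, mul_smul]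
    exact Subalgebra.smul_mem _ hDz c
  have hfin := mem_adjoin_of_smul_prime_pow_smul_of_minpoly_isEisensteinAt (K := ℚ) Int.prime_two
    hBint hz h2z hEis
  rw [Algebra.adjoin_singleton_eq_range_aeval] at hfin ⊢
  obtain ⟨g, hg⟩ := hfin
  have hg : aeval B.gen g = z := hg
  refine ⟨g, ?_⟩
  change aeval θ g = α
  rw [← haevK, hg]
  rfl

lemma fib_dvd_of_prime_dvd {f : ℤ[X]} (hf : Irreducible f) : ∀ k : ℕ, f ∣ fibP (2 ^ k) →
    ∃ j : ℕ, f ∣ lucP (2 ^ j)
  | 0, h => by
    rw [pow_zero, fibP_one] at h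
    exact absurd (isUnit_of_dvd_one h) hf.not_isUnit
  | (k + 1), h => by
    rw [pow_succ, mul_comm, fib_double] at h
    rcases hf.prime.dvd_or_dvd h with h1 | h1
    · exact fib_dvd_of_prime_dvd hf k h1
    · exact ⟨k, h1⟩

theorem even_fib_all {n : ℕ} (hn : Even n) (hn2 : 2 ≤ n) :
    (∀ f : ℤ[X], f.Monic → Irreducible f → f ∣ fibP n → MonoP f) ↔ ∃ k : ℕ, n = 2 ^ k := by
  constructor
  · intro h
    by_contra hk
    -- an odd divisor
    obtain ⟨k, m, hm2, hnm⟩ := Nat.exists_eq_two_pow_mul_odd (n := n) (by omega)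
    have hm1 : 1 < m := by
      rcases hm2 with ⟨t, ht⟩
      rcases Nat.eq_zero_or_pos t with rfl | ht0
      · exfalso
        apply hk
        refine ⟨k, ?_⟩
        rw [hnm, ht]
        ring
      · omega
    obtain ⟨y, hy, hy1⟩ := exists_root_of_unity hm1
    have hy0 : y ≠ 0 := by
      rintro rfl
      rw [zero_pow (by omega)] at hy
      exact zero_ne_one hy
    have hint : IsIntegral ℤ (y - y⁻¹) := by
      have h1 : IsIntegral ℤ y := IsIntegral.of_pow (n := m) (by omega) (by rw [hy]; exact isIntegral_one)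
      have h2 : IsIntegral ℤ y⁻¹ := IsIntegral.of_pow (n := m) (by omega)
        (by rw [inv_pow, hy, inv_one]; exact isIntegral_one)
      exact h1.sub h2
    have hyn : y ^ n = 1 := by rw [hnm, mul_comm, pow_mul, hy, one_pow]
    have hroot : aeval (y - y⁻¹) (fibP n) = 0 := by
      have h1 := fib_aeval_mul hy0 n
      rw [hn.neg_pow, inv_pow, hyn, inv_one, sub_self] at h1
      rcases mul_eq_zero.1 h1 with h2 | h2
      · exact h2
      · exfalso
        -- `y² = -1` contradicts the odd order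
        have h3 : y ^ 2 = -1 := by
          have hyy : y * y⁻¹ = 1 := mul_inv_cancel₀ hy0
          linear_combination y * h2 - hyy
        have h4 : (y ^ 2) ^ m = 1 := by rw [← pow_mul, mul_comm, pow_mul, hy, one_pow]
        rw [h3, hm2.neg_one_pow] at h4
        norm_num at h4
    have hdvd : minpoly ℤ (y - y⁻¹) ∣ fibP n := minpoly.isIntegrallyClosed_dvd hint hroot
    have hmm := h _ (minpoly.monic hint) (minpoly.irreducible hint) hdvd
    exact not_mono_of hm2 hy hy1 (minpoly.aeval ℤ _) hmm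
  · rintro ⟨k, rfl⟩ f hf hfi hd
    obtain ⟨j, hj⟩ := fib_dvd_of_prime_dvd hfi k hd
    have : f = lucP (2 ^ j) := monic_irr_eq_of_dvd hf hfi (luc_two_pow j).1 (luc_irreducible j) hj
    rw [this]
    rcases Nat.eq_zero_or_pos j with rfl | h
    · rw [pow_zero, lucP_one]; exact mono_X
    · exact mono_luc h

end Pool.Agent.Q26.Mono
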